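import Pool.Agent.V5helper74.CM.SU
import Pool.Agent.V5helper19.CM.OM

/-!
# Project CM, job CHAR: central characters of the irreducible representations
-/

set_option autoImplicit false

namespace Pool.Agent.V5helper74.CM

open MvPolynomial Pool.Agent.V5helper32.CM Pool.Agent.V5helper19.CM.Om
open scoped TensorProduct

section
variable {n : ℕ} {W : Type} [Group W] [Fintype W] {D : Rd n W} {H : Type} [Ring H] [Algebra ℂ H]
  (Φ : Full D H)

/-- elements of negative degree lie in the left ideal of the `y`'s -/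
theorem neg_Ly {d : ℤ} (hd : d < 0) {h : H} (hh : h ∈ Hm Φ d) : h ∈ Ly Φ := by
  rw [← (bb Φ.T).linearCombination_repr h, Finsupp.linearCombination_apply, Finsupp.sum]
  refine Submodule.sum_mem _ fun x hx => ?_
  have hx' := Finsupp.mem_support_iff.1 hx
  have hdx := repr_Hm Φ hh hx'
  obtain ⟨w, α, β⟩ := x
  have hβ : β ≠ 0 := by
    rintro rfl
    simp only [dg] at hdx
    rw [map_zero] at hdx
    push_cast at hdx
    omega
  rw [Algebra.smul_def]
  exact Submodule.smul_mem _ _ (bb_Ly Φ hβ)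

/-- the component of a central element -/
noncomputable def cp (d : ℤ) : Zc H →ₗ[ℂ] Zc H where
  toFun z := ⟨pc Φ d z, mem_cen (pc_central Φ d (cen z))⟩
  map_add' a b := Subtype.ext (map_add (pc Φ d) (a : H) b)
  map_smul' c a := Subtype.ext (map_smul (pc Φ d) c (a : H))

theorem cp_coe (d : ℤ) (z : Zc H) : ((cp Φ d z : Zc H) : H) = pc Φ d z := rfl

theorem cp_of_mem {d k : ℤ} {z : Zc H} (hz : (z : H) ∈ Hm Φ k) :
    cp Φ d z = if k = d then z else 0 := by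
  apply Subtype.ext
  rw [cp_coe, pc_of_mem Φ hz]
  split_ifs <;> rfl

theorem cp_sum (z : Zc H) : ∃ J : Finset ℤ, z = ∑ d ∈ J, cp Φ d z := by
  obtain ⟨J, hJ⟩ := pc_sum Φ (z : H)
  refine ⟨J, Subtype.ext ?_⟩
  rw [AddSubmonoidClass.coe_finsetSum]
  exact hJ

theorem pc_γ (s : ℂˣ) (h : H) : pc Φ 0 (Φ.γ s h) = pc Φ 0 h := by
  have key : pc Φ 0 ∘ₗ (Φ.γ s).toLinearMap = pc Φ 0 := by
    refine (bb Φ.T).ext fun y => ?_
    rw [LinearMap.comp_apply, AlgHom.toLinearMap_apply, γ_bb, map_smul, pc_bb]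
    split_ifs with hy
    · rw [hy, zpow_zero, Units.val_one, one_smul]
    · rw [smul_zero]
  exact LinearMap.congr_fun key h

/-- the component of degree zero is multiplicative modulo the left ideal -/
theorem pc_mul_Ly (z z' : Zc H) :
    pc Φ 0 ((z : H) * z') - pc Φ 0 (z : H) * pc Φ 0 (z' : H) ∈ Ly Φ := by
  obtain ⟨J, hJ⟩ := pc_sum Φ (z' : H)
  have h1 : pc Φ 0 ((z : H) * z') = ∑ e ∈ J, pc Φ (-e) (z : H) * pc Φ e (z' : H) := by
    conv_lhs => rw [hJ, Finset.mul_sum, map_sum]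
    refine Finset.sum_congr rfl fun e _ => ?_
    rw [← pc_mul Φ (pc_mem Φ e (z' : H)), neg_add_cancel]
  have h2 : pc Φ 0 (z' : H) = ∑ e ∈ J, if e = 0 then pc Φ e (z' : H) else 0 := by
    conv_lhs => rw [hJ, map_sum]
    refine Finset.sum_congr rfl fun e _ => ?_
    rw [pc_of_mem Φ (pc_mem Φ e (z' : H))]
  rw [h1, h2, Finset.mul_sum, ← Finset.sum_sub_distrib]
  refine Submodule.sum_mem _ fun e _ => ?_
  rcases lt_trichotomy e 0 with he | he | he
  · rw [if_neg (ne_of_lt he), mul_zero, sub_zero]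
    exact Submodule.smul_mem _ _ (neg_Ly Φ he (pc_mem Φ e _))
  · rw [if_pos he, he, neg_zero, sub_self]
    exact Submodule.zero_mem _
  · rw [if_neg (ne_of_gt he), mul_zero, sub_zero, pc_central Φ (-e) (cen z)]
    exact Submodule.smul_mem _ _ (neg_Ly Φ (by omega) (pc_mem Φ (-e) _))

/-- `c` is the scalar by which the degree zero part of `z` acts -/
def Rel (S : IrrSys W) (i : S.I) (z : Zc H) (c : ℂ) : Prop :=
  ∃ a : MonoidAlgebra ℂ W, pc Φ 0 (z : H) - MonoidAlgebra.lift ℂ H W Φ.T.u a ∈ Ly Φ ∧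
    ∀ x, (S.ρ i).asAlgebraHom a x = c • x

theorem lift_unique {h : H} {a b : MonoidAlgebra ℂ W}
    (ha : h - MonoidAlgebra.lift ℂ H W Φ.T.u a ∈ Ly Φ)
    (hb : h - MonoidAlgebra.lift ℂ H W Φ.T.u b ∈ Ly Φ) : a = b := by
  rw [← sub_eq_zero]
  apply lift_zero Φ
  have := Submodule.sub_mem _ hb ha
  rwa [sub_sub_sub_cancel_left, ← map_sub] at this

theorem pc_zero_fix (z : H) : ∀ s, Φ.γ s (pc Φ 0 z) = pc Φ 0 z := fun s => by
  have := pc_mem Φ 0 z s
  rwa [zpow_zero, Units.val_one, one_smul] at this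

theorem fix_pc {z : H} (hz : ∀ s, Φ.γ s z = z) : pc Φ 0 z = z := by
  rw [pc_of_mem Φ (k := 0) (fun s => by rw [hz s, zpow_zero, Units.val_one, one_smul]), if_pos rfl]

omit [Fintype W] in
theorem schur (S : IrrSys W) (i : S.I) (a : MonoidAlgebra ℂ W) (ha : ∀ b, a * b = b * a) :
    ∃ c : ℂ, ∀ x, (S.ρ i).asAlgebraHom a x = c • x := by
  have := S.nt i
  obtain ⟨c, hc⟩ := Module.End.exists_eigenvalue ((S.ρ i).asAlgebraHom a)
  refine ⟨c, ?_⟩
  have h1 : Module.End.eigenspace ((S.ρ i).asAlgebraHom a) c = ⊤ := by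
    refine (S.irr i _ fun w x hx => ?_).resolve_left hc
    rw [Module.End.mem_eigenspace_iff] at hx ⊢
    have h2 : (S.ρ i).asAlgebraHom a * S.ρ i w = S.ρ i w * (S.ρ i).asAlgebraHom a := by
      rw [← Representation.asAlgebraHom_single_one (S.ρ i) w, ← map_mul, ← map_mul, ha]
    have h3 := LinearMap.congr_fun h2 x
    rw [Module.End.mul_apply, Module.End.mul_apply, hx, map_smul] at h3
    exact h3
  intro x
  have : x ∈ Module.End.eigenspace ((S.ρ i).asAlgebraHom a) c := by rw [h1]; trivial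
  exact Module.End.mem_eigenspace_iff.1 this

theorem rel_exists (S : IrrSys W) (i : S.I) (z : Zc H) : ∃ c, Rel Φ S i z c := by
  obtain ⟨a, ha⟩ := om1 Φ (pc Φ 0 (z : H)) (pc_zero_fix Φ z)
  obtain ⟨c, hc⟩ := schur S i a (om3 Φ (pc Φ 0 (z : H)) (pc_central Φ 0 (cen z)) a ha)
  exact ⟨c, a, ha, hc⟩

omit [Fintype W] in
theorem exists_ne_E (S : IrrSys W) (i : S.I) : ∃ x : S.E i, x ≠ 0 := by
  have := S.nt i
  exact exists_ne 0

theorem rel_unique (S : IrrSys W) (i : S.I) {z : Zc H} {c c' : ℂ} (h : Rel Φ S i z c)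
    (h' : Rel Φ S i z c') : c = c' := by
  obtain ⟨a, ha, hc⟩ := h
  obtain ⟨b, hb, hd⟩ := h'
  obtain ⟨x, hx⟩ := exists_ne_E S i
  have hab := lift_unique Φ ha hb
  rw [← hab] at hd
  have := (hc x).symm.trans (hd x)
  exact smul_left_injective ℂ hx this

theorem rel_one (S : IrrSys W) (i : S.I) : Rel Φ S i 1 1 := by
  refine ⟨1, ?_, fun x => ?_⟩
  · rw [OneMemClass.coe_one, fix_pc Φ (fun s => map_one _), map_one, sub_self]
    exact Submodule.zero_mem _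
  · rw [map_one, one_smul, Module.End.one_apply]

theorem rel_add (S : IrrSys W) (i : S.I) {z z' : Zc H} {c c' : ℂ} (h : Rel Φ S i z c)
    (h' : Rel Φ S i z' c') : Rel Φ S i (z + z') (c + c') := by
  obtain ⟨a, ha, hc⟩ := h
  obtain ⟨b, hb, hd⟩ := h'
  refine ⟨a + b, ?_, fun x => ?_⟩
  · rw [AddMemClass.coe_add, map_add, map_add, add_sub_add_comm]
    exact Submodule.add_mem _ ha hb
  · rw [map_add, LinearMap.add_apply, hc, hd, add_smul]

theorem rel_smul (S : IrrSys W) (i : S.I) {z : Zc H} {c : ℂ} (k : ℂ) (h : Rel Φ S i z c) :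
    Rel Φ S i (k • z) (k * c) := by
  obtain ⟨a, ha, hc⟩ := h
  refine ⟨k • a, ?_, fun x => ?_⟩
  · have e : ((k • z : Zc H) : H) = k • (z : H) := rfl
    rw [e, map_smul, map_smul, ← smul_sub, Algebra.smul_def]
    exact Submodule.smul_mem _ _ ha
  · rw [map_smul, LinearMap.smul_apply, hc, smul_smul]

theorem rel_mul (S : IrrSys W) (i : S.I) {z z' : Zc H} {c c' : ℂ} (h : Rel Φ S i z c)
    (h' : Rel Φ S i z' c') : Rel Φ S i (z * z') (c * c') := by
  obtain ⟨a, ha, hc⟩ := h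
  obtain ⟨b, hb, hd⟩ := h'
  refine ⟨a * b, ?_, fun x => ?_⟩
  · rw [MulMemClass.coe_mul]
    have h1 := Submodule.add_mem _ (pc_mul_Ly Φ z z') (om4 Φ _ _ _ _ ha hb)
    rwa [sub_add_sub_cancel] at h1
  · rw [map_mul, Module.End.mul_apply, hd, map_smul, hc, smul_smul, mul_comm]

/-- the central character of `E_i` -/
noncomputable def chr (S : IrrSys W) (i : S.I) : Zc H →ₐ[ℂ] ℂ where
  toFun z := (rel_exists Φ S i z).choose
  map_one' := rel_unique Φ S i (rel_exists Φ S i 1).choose_spec (rel_one Φ S i)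
  map_mul' a b := rel_unique Φ S i (rel_exists Φ S i (a * b)).choose_spec
    (rel_mul Φ S i (rel_exists Φ S i a).choose_spec (rel_exists Φ S i b).choose_spec)
  map_zero' := by
    refine rel_unique Φ S i (rel_exists Φ S i 0).choose_spec ?_
    have := rel_smul Φ S i 0 (rel_one Φ S i)
    rwa [zero_smul, zero_mul] at this
  map_add' a b := rel_unique Φ S i (rel_exists Φ S i (a + b)).choose_spec
    (rel_add Φ S i (rel_exists Φ S i a).choose_spec (rel_exists Φ S i b).choose_spec)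
  commutes' c := by
    refine rel_unique Φ S i (rel_exists Φ S i _).choose_spec ?_
    have := rel_smul Φ S i c (rel_one Φ S i)
    rw [mul_one, ← Algebra.algebraMap_eq_smul_one] at this
    exact this

theorem chr_rel (S : IrrSys W) (i : S.I) (z : Zc H) : Rel Φ S i z (chr Φ S i z) :=
  (rel_exists Φ S i z).choose_spec

theorem chr_PG (S : IrrSys W) (i : S.I) : PG Φ (chr Φ S i) := by
  intro s a b hb
  refine rel_unique Φ S i (chr_rel Φ S i b) ?_
  obtain ⟨c, hc, hd⟩ := chr_rel Φ S i a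
  refine ⟨c, ?_, hd⟩
  rw [hb, pc_γ]
  exact hc

theorem chr_Fam (S : IrrSys W) (i : S.I) : Fam Φ (chr Φ S i) (S.ρ i) := by
  intro z a hz ha x
  obtain ⟨b, hb, hc⟩ := chr_rel Φ S i z
  rw [fix_pc Φ hz] at hb
  rw [lift_unique Φ ha hb]
  exact hc x

theorem PG_zero {p : Zc H →ₐ[ℂ] ℂ} (hp : PG Φ p) (z : Zc H) : p z = p (cp Φ 0 z) := by
  obtain ⟨J, hJ⟩ := cp_sum Φ z
  have h1 : cp Φ 0 z = ∑ d ∈ J, if d = 0 then cp Φ d z else 0 := by
    conv_lhs => rw [hJ, map_sum]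
    refine Finset.sum_congr rfl fun d _ => ?_
    rw [cp_of_mem Φ (k := d) (pc_mem Φ d _)]
  rw [h1]
  conv_lhs => rw [hJ]
  rw [map_sum, map_sum]
  refine Finset.sum_congr rfl fun d _ => ?_
  split_ifs with hd
  · rfl
  · rw [map_zero]
    have h2 : (((((u2 ^ d : ℂˣ) : ℂ) • cp Φ d z : Zc H)) : H) = Φ.γ u2 (cp Φ d z : Zc H) := by
      rw [cp_coe, pc_mem Φ d (z : H) u2]
      rfl
    have h3 := hp u2 _ _ h2
    rw [map_smul, u2_zpow, smul_eq_mul] at h3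
    have h4 : ((2 : ℂ) ^ d - 1) * p (cp Φ d z) = 0 := by
      rw [sub_mul, h3, one_mul, sub_self]
    rcases mul_eq_zero.1 h4 with h5 | h5
    · exfalso
      rw [sub_eq_zero, ← zpow_zero (2 : ℂ)] at h5
      exact hd (two_inj h5)
    · exact h5

theorem fam_unique (S : IrrSys W) (i : S.I) {p q : Zc H →ₐ[ℂ] ℂ} (hp : PG Φ p) (hq : PG Φ q)
    (fp : Fam Φ p (S.ρ i)) (fq : Fam Φ q (S.ρ i)) : p = q := by
  apply AlgHom.ext
  intro z
  rw [PG_zero Φ hp, PG_zero Φ hq]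
  obtain ⟨a, ha⟩ := om1 Φ (pc Φ 0 (z : H)) (pc_zero_fix Φ z)
  obtain ⟨x, hx⟩ := exists_ne_E S i
  have h1 := fp (cp Φ 0 z) a (pc_zero_fix Φ z) ha x
  have h2 := fq (cp Φ 0 z) a (pc_zero_fix Φ z) ha x
  exact smul_left_injective ℂ hx (h1.symm.trans h2)

/-! ## Twists -/

theorem j_act_Ly (g : Gl n) (b : Fin n) : Φ.T.j (act g (X b)) ∈ Ly Φ := by
  rw [act_X, map_sum]
  refine Submodule.sum_mem _ fun c _ => ?_
  rw [map_mul]
  exact Submodule.smul_mem _ _ (Submodule.subset_span ⟨c, rfl⟩)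

theorem σ_Ly {h : H} (hh : h ∈ Ly Φ) : Φ.σ h ∈ Ly Φ := by
  obtain ⟨c, hc⟩ := (Submodule.mem_span_range_iff_exists_fun H).1 hh
  rw [← hc, map_sum]
  refine Submodule.sum_mem _ fun b _ => ?_
  rw [smul_eq_mul, map_mul, Φ.σj]
  exact Submodule.smul_mem _ _ (j_act_Ly Φ _ b)

theorem σ_symm_Ly {h : H} (hh : h ∈ Ly Φ) : Φ.σ.symm h ∈ Ly Φ := by
  obtain ⟨c, hc⟩ := (Submodule.mem_span_range_iff_exists_fun H).1 hh
  rw [← hc, map_sum]
  refine Submodule.sum_mem _ fun b _ => ?_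
  have h1 : Φ.σ.symm (Φ.T.j (X b)) = Φ.T.j (act (dualG D.t)⁻¹ (X b)) := by
    rw [AlgEquiv.symm_apply_eq, Φ.σj, ← act_mul, mul_inv_cancel, act_one]
  rw [smul_eq_mul, map_mul, h1]
  exact Submodule.smul_mem _ _ (j_act_Ly Φ _ b)

theorem σ_lift (a : MonoidAlgebra ℂ W) : Φ.σ (MonoidAlgebra.lift ℂ H W Φ.T.u a) =
    MonoidAlgebra.lift ℂ H W Φ.T.u (MonoidAlgebra.mapDomain D.θ a) := by
  have h : (Φ.σ : H →ₐ[ℂ] H).comp (MonoidAlgebra.lift ℂ H W Φ.T.u) =
      (MonoidAlgebra.lift ℂ H W Φ.T.u).comp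
        (MonoidAlgebra.mapDomainAlgHom ℂ ℂ (D.θ : W →* W)) := by
    apply MonoidAlgebra.algHom_ext
    · intro w
      simp [Φ.σu]
    · exact Subsingleton.elim _ _
  exact DFunLike.congr_fun h a

theorem σ_γ (s : ℂˣ) (h : H) : Φ.γ s (Φ.σ h) = Φ.σ (Φ.γ s h) := by
  have key : (Φ.γ s).comp (Φ.σ : H →ₐ[ℂ] H) = (Φ.σ : H →ₐ[ℂ] H).comp (Φ.γ s) := by
    apply hom_ext Φ.T
    · intro f
      have h1 : ((Φ.γ s).comp (Φ.σ : H →ₐ[ℂ] H)).comp Φ.T.i =
          ((Φ.σ : H →ₐ[ℂ] H).comp (Φ.γ s)).comp Φ.T.i := by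
        apply MvPolynomial.algHom_ext
        intro a
        show Φ.γ s (Φ.σ (Φ.T.i (X a))) = Φ.σ (Φ.γ s (Φ.T.i (X a)))
        rw [Φ.σi, Φ.γi, map_smul, Φ.σi, act_X]
        simp only [map_sum, map_mul, Φ.γi, Finset.smul_sum, mul_smul_comm]
        refine Finset.sum_congr rfl fun c _ => ?_
        rw [MvPolynomial.algHom_C, AlgHom.commutes]
      exact DFunLike.congr_fun h1 f
    · intro w
      show Φ.γ s (Φ.σ (Φ.T.u w)) = Φ.σ (Φ.γ s (Φ.T.u w))
      rw [Φ.σu, Φ.γu, Φ.γu, Φ.σu]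
    · intro f
      have h1 : ((Φ.γ s).comp (Φ.σ : H →ₐ[ℂ] H)).comp Φ.T.j =
          ((Φ.σ : H →ₐ[ℂ] H).comp (Φ.γ s)).comp Φ.T.j := by
        apply MvPolynomial.algHom_ext
        intro a
        show Φ.γ s (Φ.σ (Φ.T.j (X a))) = Φ.σ (Φ.γ s (Φ.T.j (X a)))
        rw [Φ.σj, Φ.γj, map_smul, Φ.σj, act_X]
        simp only [map_sum, map_mul, Φ.γj, Finset.smul_sum, mul_smul_comm]
        refine Finset.sum_congr rfl fun c _ => ?_
        rw [MvPolynomial.algHom_C, AlgHom.commutes]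
      exact DFunLike.congr_fun h1 f
  exact DFunLike.congr_fun key h

omit [Fintype W] in
theorem Tw_alg (S : IrrSys W) (θ : W ≃* W) {i j : S.I} (e : S.E j ≃ₗ[ℂ] S.E i)
    (he : ∀ w x, e (S.ρ j w x) = S.ρ i (θ w) (e x)) (a : MonoidAlgebra ℂ W) (x : S.E j) :
    e ((S.ρ j).asAlgebraHom a x) =
      (S.ρ i).asAlgebraHom (MonoidAlgebra.mapDomain θ a) (e x) := by
  have h : (e.conjAlgEquiv ℂ : Module.End ℂ (S.E j) →ₐ[ℂ] Module.End ℂ (S.E i)).comp
      (S.ρ j).asAlgebraHom = (S.ρ i).asAlgebraHom.comp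
        (MonoidAlgebra.mapDomainAlgHom ℂ ℂ (θ : W →* W)) := by
    apply MonoidAlgebra.algHom_ext
    · intro w
      apply LinearMap.ext
      intro y
      simp [LinearEquiv.conjAlgEquiv_apply, he]
    · exact Subsingleton.elim _ _
  have h2 := LinearMap.congr_fun (DFunLike.congr_fun h a) (e x)
  simpa [LinearEquiv.conjAlgEquiv_apply] using h2

theorem fam_tw {p : Zc H →ₐ[ℂ] ℂ} (S : IrrSys W) {i j : S.I} (htw : Tw S D.θ i j)
    (h : Fam Φ p (S.ρ i)) : Fam Φ (p.comp (sigC Φ : Zc H →ₐ[ℂ] Zc H)) (S.ρ j) := by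
  obtain ⟨e, he⟩ := htw
  intro z a hz ha x
  have h1 := h (sigC Φ z) (MonoidAlgebra.mapDomain D.θ a)
    (fun s => by rw [sigC_coe, σ_γ, hz s]) (by
      rw [sigC_coe, ← σ_lift, ← map_sub]
      exact σ_Ly Φ ha) (e x)
  rw [← Tw_alg S D.θ e he, ← map_smul] at h1
  exact e.injective h1

theorem fam_tw' {p : Zc H →ₐ[ℂ] ℂ} (S : IrrSys W) {i j : S.I} (htw : Tw S D.θ i j)
    (h : Fam Φ p (S.ρ j)) : Fam Φ (p.comp ((sigC Φ).symm : Zc H →ₐ[ℂ] Zc H)) (S.ρ i) := by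
  obtain ⟨e, he⟩ := htw
  intro z a hz ha x
  have hcoe : (((sigC Φ).symm z : Zc H) : H) = Φ.σ.symm z := rfl
  have hθ : MonoidAlgebra.mapDomain D.θ (MonoidAlgebra.mapDomain D.θ.symm a) = a := by
    have h0 : (MonoidAlgebra.mapDomainAlgHom ℂ ℂ (D.θ : W →* W)).comp
        (MonoidAlgebra.mapDomainAlgHom ℂ ℂ (D.θ.symm : W →* W)) = AlgHom.id ℂ _ := by
      apply MonoidAlgebra.algHom_ext
      · intro w
        simp
      · exact Subsingleton.elim _ _
    exact DFunLike.congr_fun h0 a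
  have hs : Φ.σ.symm (MonoidAlgebra.lift ℂ H W Φ.T.u a) =
      MonoidAlgebra.lift ℂ H W Φ.T.u (MonoidAlgebra.mapDomain D.θ.symm a) := by
    rw [AlgEquiv.symm_apply_eq, σ_lift, hθ]
  have h1 := h ((sigC Φ).symm z) (MonoidAlgebra.mapDomain D.θ.symm a)
    (fun s => by
      rw [hcoe]
      apply Φ.σ.injective
      rw [← σ_γ, AlgEquiv.apply_symm_apply, hz s]) (by
      rw [hcoe, ← hs, ← map_sub]
      exact σ_symm_Ly Φ ha) (e.symm x)
  have h2 := congrArg e h1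
  rw [Tw_alg S D.θ e he, hθ, map_smul, LinearEquiv.apply_symm_apply] at h2
  exact h2

theorem comp_sig_of_PS {p : Zc H →ₐ[ℂ] ℂ} (hp : PS Φ p) :
    p.comp (sigC Φ : Zc H →ₐ[ℂ] Zc H) = p := by
  apply AlgHom.ext
  intro z
  exact hp z (sigC Φ z) rfl

theorem comp_sig_symm_of_PS {p : Zc H →ₐ[ℂ] ℂ} (hp : PS Φ p) :
    p.comp ((sigC Φ).symm : Zc H →ₐ[ℂ] Zc H) = p := by
  apply AlgHom.ext
  intro z
  have h := hp ((sigC Φ).symm z) z (by
    have : (sigC Φ ((sigC Φ).symm z) : H) = Φ.σ (((sigC Φ).symm z : Zc H) : H) := rfl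
    rw [← this, AlgEquiv.apply_symm_apply])
  exact h.symm

end

theorem t_CHAR : S_CHAR := by
  intro n W _ _ D H _ _ Φ S
  refine ⟨fun i => ⟨chr Φ S i, chr_PG Φ S i, chr_Fam Φ S i, fun p' h1 h2 =>
    fam_unique Φ S i h1 (chr_PG Φ S i) h2 (chr_Fam Φ S i)⟩, fun p _ hS i j htw => ⟨fun h => ?_,
    fun h => ?_⟩, fun p hG i htw h => ?_⟩
  · have := fam_tw Φ S htw h
    rwa [comp_sig_of_PS Φ hS] at this
  · have := fam_tw' Φ S htw h
    rwa [comp_sig_symm_of_PS Φ hS] at this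
  · have h1 := fam_tw Φ S htw h
    have h2 : PG Φ (p.comp (sigC Φ : Zc H →ₐ[ℂ] Zc H)) := by
      intro s a b hb
      refine hG s (sigC Φ a) (sigC Φ b) ?_
      rw [sigC_coe, sigC_coe, hb, σ_γ]
    have h3 := fam_unique Φ S i h2 hG h1 h
    intro a b hb
    have h4 : b = sigC Φ a := Subtype.ext hb
    rw [h4]
    exact DFunLike.congr_fun h3 a

end Pool.Agent.V5helper74.CM

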