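import Pool.Agent.V5helper74.CM.Base

/-!
# Project CM, job SU: the spherical module
-/

set_option autoImplicit false

namespace Pool.Agent.V5helper74.CM

open MvPolynomial Pool.Agent.V5helper32.CM
open scoped TensorProduct

section
variable {n : ℕ} {W : Type} [Group W] [Fintype W] {D : Rd n W} {H : Type} [Ring H] [Algebra ℂ H]

theorem rho_inj (D : Rd n W) : Function.Injective D.ρ := by
  rw [injective_iff_map_eq_one]
  intro w hw
  apply D.vreg
  rw [hw]
  simp

theorem rho_theta_iter (D : Rd n W) (k : ℕ) (w : W) :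
    D.ρ ((D.θ)^[k] w) = D.t ^ k * D.ρ w * (D.t ^ k)⁻¹ := by
  induction k with
  | zero => simp
  | succ k ih =>
    rw [Function.iterate_succ_apply', D.tρ, ih, pow_succ', mul_inv_rev]
    group

theorem theta_iter (D : Rd n W) (w : W) : (D.θ)^[D.m] w = w := by
  apply rho_inj D
  rw [rho_theta_iter, D.tm]
  simp

theorem dualG_pow (g : Gl n) (k : ℕ) : dualG (g ^ k) = dualG g ^ k := map_pow _ _ _

theorem sigma_iter (Φ : Full D H) (h : H) : (Φ.σ)^[D.m] h = h := by
  have key : ∀ k : ℕ, (∀ f, ((Φ.σ)^[k]) (Φ.T.i f) = Φ.T.i (act (D.t ^ k) f)) ∧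
      (∀ g, ((Φ.σ)^[k]) (Φ.T.j g) = Φ.T.j (act (dualG (D.t ^ k)) g)) ∧
      ∀ w, ((Φ.σ)^[k]) (Φ.T.u w) = Φ.T.u ((D.θ)^[k] w) := by
    intro k
    induction k with
    | zero =>
      refine ⟨fun f => ?_, fun g => ?_, fun w => rfl⟩
      · rw [pow_zero, act_one]; rfl
      · rw [pow_zero, map_one, act_one]; rfl
    | succ k ih =>
      refine ⟨fun f => ?_, fun g => ?_, fun w => ?_⟩
      · rw [Function.iterate_succ_apply', ih.1, Φ.σi, ← act_mul, pow_succ']
      · rw [Function.iterate_succ_apply', ih.2.1, Φ.σj, ← act_mul, ← map_mul, pow_succ']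
      · rw [Function.iterate_succ_apply', ih.2.2, Φ.σu, Function.iterate_succ_apply']
  have hpow : ∀ (k : ℕ) (x : H), (Φ.σ ^ k) x = (Φ.σ)^[k] x := by
    intro k x
    rw [AlgEquiv.coe_pow]
  have h1 : ((Φ.σ ^ D.m : H ≃ₐ[ℂ] H) : H →ₐ[ℂ] H) = AlgHom.id ℂ H := by
    apply hom_ext Φ.T
    · intro f
      show (Φ.σ ^ D.m) (Φ.T.i f) = _
      rw [hpow, (key D.m).1, D.tm, act_one]
      rfl
    · intro w
      show (Φ.σ ^ D.m) (Φ.T.u w) = _
      rw [hpow, (key D.m).2.2, theta_iter]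
      rfl
    · intro g
      show (Φ.σ ^ D.m) (Φ.T.j g) = _
      rw [hpow, (key D.m).2.1, D.tm, map_one, act_one]
      rfl
  rw [← hpow]
  exact DFunLike.congr_fun h1 h

/-- the automorphism of the centre -/
noncomputable def sigC (Φ : Full D H) : Zc H ≃ₐ[ℂ] Zc H where
  toFun z := ⟨Φ.σ z, by
    rw [Subalgebra.mem_center_iff]
    intro b
    have h := Subalgebra.mem_center_iff.1 z.2 (Φ.σ.symm b)
    have h2 := congrArg Φ.σ h
    rwa [map_mul, map_mul, AlgEquiv.apply_symm_apply] at h2⟩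
  invFun z := ⟨Φ.σ.symm z, by
    rw [Subalgebra.mem_center_iff]
    intro b
    have h := Subalgebra.mem_center_iff.1 z.2 (Φ.σ b)
    have h2 := congrArg Φ.σ.symm h
    rwa [map_mul, map_mul, AlgEquiv.symm_apply_apply] at h2⟩
  left_inv z := by
    apply Subtype.ext
    exact Φ.σ.symm_apply_apply _
  right_inv z := by
    apply Subtype.ext
    exact Φ.σ.apply_symm_apply _
  map_mul' a b := by
    apply Subtype.ext
    exact map_mul Φ.σ _ _
  map_add' a b := by
    apply Subtype.ext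
    exact map_add Φ.σ _ _
  commutes' c := by
    apply Subtype.ext
    exact Φ.σ.commutes c

theorem sigC_coe (Φ : Full D H) (z : Zc H) : ((sigC Φ z : Zc H) : H) = Φ.σ z := rfl

theorem sigC_pow (Φ : Full D H) (z : Zc H) : (sigC Φ ^ D.m) z = z := by
  have : ∀ k : ℕ, (((sigC Φ ^ k) z : Zc H) : H) = (Φ.σ)^[k] z := by
    intro k
    induction k with
    | zero => rfl
    | succ k ih =>
      rw [pow_succ', AlgEquiv.mul_apply, sigC_coe, ih, Function.iterate_succ_apply']
  apply Subtype.ext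
  rw [this, sigma_iter]

/-- the sum of the group elements -/
noncomputable def ee (Φ : Full D H) : H := ∑ w, Φ.T.u w

theorem sigma_ee (Φ : Full D H) : Φ.σ (ee Φ) = ee Φ := by
  unfold ee
  rw [map_sum]
  simp only [Φ.σu]
  exact Equiv.sum_comp D.θ.toEquiv (fun w => Φ.T.u w)

/-- the spherical space -/
noncomputable def Sph (Φ : Full D H) : Submodule ℂ H where
  carrier := {h | ee Φ * h = (Fintype.card W : ℂ) • h ∧ h * ee Φ = (Fintype.card W : ℂ) • h}
  add_mem' := by
    rintro a b ⟨ha1, ha2⟩ ⟨hb1, hb2⟩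
    exact ⟨by rw [mul_add, ha1, hb1, smul_add], by rw [add_mul, ha2, hb2, smul_add]⟩
  zero_mem' := ⟨by rw [mul_zero, smul_zero], by rw [zero_mul, smul_zero]⟩
  smul_mem' := by
    rintro c a ⟨ha1, ha2⟩
    exact ⟨by rw [mul_smul_comm, ha1, smul_comm], by rw [smul_mul_assoc, ha2, smul_comm]⟩

theorem mem_Sph (Φ : Full D H) (h : H) : h ∈ Sph Φ ↔
    (ee Φ * h = (Fintype.card W : ℂ) • h ∧ h * ee Φ = (Fintype.card W : ℂ) • h) := Iff.rfl

/-- the action of the centre -/
noncomputable def zAct (Φ : Full D H) : Zc H →ₐ[ℂ] Module.End ℂ (Sph Φ) where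
  toFun z := ((LinearMap.mulLeft ℂ (z : H)).restrict (p := Sph Φ) (q := Sph Φ) (by
    rintro h ⟨h1, h2⟩
    have hz := Subalgebra.mem_center_iff.1 z.2
    refine ⟨?_, ?_⟩
    · show ee Φ * ((z : H) * h) = (Fintype.card W : ℂ) • ((z : H) * h)
      rw [← mul_assoc, hz, mul_assoc, h1, mul_smul_comm]
    · show ((z : H) * h) * ee Φ = (Fintype.card W : ℂ) • ((z : H) * h)
      rw [mul_assoc, h2, mul_smul_comm]))
  map_one' := by
    ext h
    show ((1 : Zc H) : H) * h = h
    rw [OneMemClass.coe_one, one_mul]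
  map_mul' a b := by
    ext h
    show ((a * b : Zc H) : H) * h = a * (b * h)
    rw [MulMemClass.coe_mul, mul_assoc]
  map_zero' := by
    ext h
    show ((0 : Zc H) : H) * h = 0
    rw [ZeroMemClass.coe_zero, zero_mul]
  map_add' a b := by
    ext h
    show ((a + b : Zc H) : H) * h = a * h + b * h
    rw [AddMemClass.coe_add, add_mul]
  commutes' c := by
    ext h
    show ((algebraMap ℂ (Zc H) c : Zc H) : H) * h = c • (h : H)
    rw [Algebra.smul_def]
    rfl

/-- the action of `t` -/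
noncomputable def tAct (Φ : Full D H) : Module.End ℂ (Sph Φ) :=
  (Φ.σ.toLinearMap).restrict (p := Sph Φ) (q := Sph Φ) (by
    rintro h ⟨h1, h2⟩
    refine ⟨?_, ?_⟩
    · show ee Φ * Φ.σ h = (Fintype.card W : ℂ) • Φ.σ h
      rw [← map_smul, ← h1, map_mul, sigma_ee]
    · show Φ.σ h * ee Φ = (Fintype.card W : ℂ) • Φ.σ h
      rw [← map_smul, ← h2, map_mul, sigma_ee])

theorem tAct_pow (Φ : Full D H) : tAct Φ ^ D.m = 1 := by
  have : ∀ (k : ℕ) (h : Sph Φ), (((tAct Φ ^ k) h : Sph Φ) : H) = (Φ.σ)^[k] h := by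
    intro k
    induction k with
    | zero => intro h; rfl
    | succ k ih =>
      intro h
      rw [pow_succ', Module.End.mul_apply, Function.iterate_succ_apply', ← ih]
      rfl
  ext h
  rw [this, sigma_iter]
  rfl

end

theorem t_SU (hDUAL : S_DUAL) (hCST5 : S_CST5) (hLAM : S_LAM) : S_SU := by
  intro n W _ _ D H _ _ Φ
  obtain ⟨CF⟩ := hCST5 n W D
  obtain ⟨D', hρ, hθ, ht⟩ := hDUAL n W D
  obtain ⟨CG⟩ := hCST5 n W D'
  obtain ⟨Λ, iR, iA, s, hsn, hs⟩ := hLAM (Zc H) (sigC Φ) D.m D.mpos (sigC_pow Φ)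
  obtain ⟨K, hK1, hK2⟩ := hs (Module.End ℂ (Sph Φ)) (zAct Φ) (tAct Φ) (tAct_pow Φ) (by
    intro z
    ext h
    show Φ.σ ((z : H) * h) = (sigC Φ z : H) * Φ.σ h
    rw [map_mul]
    rfl)
  letI iM : Module Λ (Sph Φ) := Module.compHom (Sph Φ) K.toRingHom
  have hact : ∀ (l : Λ) (m : Sph Φ), l • m = K l m := fun l m => rfl
  haveI iT : IsScalarTower ℂ Λ (Sph Φ) := ⟨fun c l m => by
    rw [hact, hact, map_smul]
    rfl⟩
  refine ⟨Λ, iR, iA, Sph Φ, inferInstance, inferInstance, iM, iT,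
    { Φ := Φ
      CF := CF
      D' := D'
      hρ := hρ
      hθ := hθ
      ht := ht
      CG := CG
      F := fun a => ⟨Φ.T.i (CF.f a), by
        rw [Subalgebra.mem_center_iff]
        intro b
        exact (Φ.T.ci _ (CF.inv a) b).symm⟩
      hF := fun a => rfl
      G := fun a => ⟨Φ.T.j (CG.f a), by
        rw [Subalgebra.mem_center_iff]
        intro b
        refine (Φ.T.cj _ (fun w => ?_) b).symm
        have := CG.inv a w
        rwa [hρ] at this⟩
      hG := fun a => rfl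
      σ := sigC Φ
      hσ := fun z => rfl
      s := s
      ψ := (Sph Φ).subtype
      ψinj := Subtype.val_injective
      ψran := fun h => ⟨?_, ?_⟩
      ψz := fun z m => ?_
      ψt := fun m => ?_ }, rfl, ?_⟩
  · rintro ⟨m, rfl⟩
    exact m.2
  · intro hh
    exact ⟨⟨h, hh⟩, rfl⟩
  · show ((s.ι z • m : Sph Φ) : H) = z * m
    rw [hact, hK1]
    rfl
  · show ((s.t • m : Sph Φ) : H) = Φ.σ m
    rw [hact, hK2]
    rfl
  · intro B _ _ f T hT hf
    exact hs B f T (by rw [← hsn]; exact hT) hf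

end Pool.Agent.V5helper74.CM
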