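import Pool.Agent.V5helper32.CM.Stm2

/-!
# Project CM: basic facts on the triangular decomposition
-/

set_option autoImplicit false

namespace Pool.Agent.V5helper74.CM

open MvPolynomial Pool.Agent.V5helper32.CM
open scoped TensorProduct

section
variable {n : ℕ} {W : Type} [Group W] {H : Type} [Ring H] [Algebra ℂ H]

theorem mu_tmul (i j : MvPolynomial (Fin n) ℂ →ₐ[ℂ] H) (u : W →* H) (w : W)
    (f g : MvPolynomial (Fin n) ℂ) : mu i j u w (f ⊗ₜ[ℂ] g) = i f * u w * j g := by
  unfold mu
  rw [TensorProduct.lift.tmul]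
  rfl

end

section
variable {n : ℕ} {W : Type} [Group W] [Fintype W] {ρ : W →* Gl n} {H : Type} [Ring H] [Algebra ℂ H]

/-- The products span `H`. -/
theorem span_top (T : Tri ρ H) :
    Submodule.span ℂ {h : H | ∃ f w g, h = T.i f * T.u w * T.j g} = ⊤ := by
  rw [eq_top_iff]
  rintro h -
  obtain ⟨q, rfl⟩ := T.pbw.2 h
  refine Submodule.sum_mem _ fun w _ => ?_
  induction q w using TensorProduct.induction_on with
  | zero => rw [map_zero]; exact Submodule.zero_mem _
  | tmul f g => rw [mu_tmul]; exact Submodule.subset_span ⟨f, w, g, rfl⟩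
  | add a b ha hb => rw [map_add]; exact Submodule.add_mem _ ha hb

/-- Induction on the elements of `H`. -/
theorem H_ind (T : Tri ρ H) {P : H → Prop} (h0 : ∀ f w g, P (T.i f * T.u w * T.j g))
    (h1 : P 0) (h2 : ∀ a b, P a → P b → P (a + b)) (h3 : ∀ (c : ℂ) a, P a → P (c • a)) (h : H) :
    P h := by
  have : h ∈ Submodule.span ℂ {h : H | ∃ f w g, h = T.i f * T.u w * T.j g} := by
    rw [span_top]; trivial
  induction this using Submodule.span_induction with
  | mem x hx =>
    obtain ⟨f, w, g, rfl⟩ := hx
    exact h0 f w g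
  | zero => exact h1
  | add x y _ _ hx hy => exact h2 x y hx hy
  | smul c x _ hx => exact h3 c x hx

/-- Two algebra homomorphisms which agree on the generators are equal. -/
theorem hom_ext (T : Tri ρ H) {B : Type} [Ring B] [Algebra ℂ B] (F G : H →ₐ[ℂ] B)
    (hi : ∀ f, F (T.i f) = G (T.i f)) (hu : ∀ w, F (T.u w) = G (T.u w))
    (hj : ∀ g, F (T.j g) = G (T.j g)) : F = G := by
  ext h
  induction h using H_ind T with
  | h0 f w g => rw [map_mul, map_mul, map_mul, map_mul, hi, hu, hj]
  | h1 => rw [map_zero, map_zero]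
  | h2 a b ha hb => rw [map_add, map_add, ha, hb]
  | h3 c a ha => rw [map_smul, map_smul, ha]

end

section
variable {n : ℕ}

theorem act_X (g : Gl n) (a : Fin n) : act g (X a) = ∑ b, C ((g⁻¹).val a b) * X b := by
  unfold act
  rw [aeval_X]

theorem act_one (f : MvPolynomial (Fin n) ℂ) : act (1 : Gl n) f = f := by
  have : act (1 : Gl n) = AlgHom.id ℂ _ := by
    apply MvPolynomial.algHom_ext
    intro a
    rw [act_X, AlgHom.id_apply]
    rw [Finset.sum_eq_single a]
    · simp
    · intro b _ hb
      rw [inv_one, Units.val_one, Matrix.one_apply_ne (Ne.symm hb), map_zero, zero_mul]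
    · intro h
      exact absurd (Finset.mem_univ a) h
  rw [this]
  rfl

theorem act_mul (g h : Gl n) (f : MvPolynomial (Fin n) ℂ) : act (g * h) f = act g (act h f) := by
  have : act (g * h) = (act g).comp (act h) := by
    apply MvPolynomial.algHom_ext
    intro a
    rw [act_X, AlgHom.comp_apply, act_X, map_sum]
    simp only [map_mul, act_X, MvPolynomial.algHom_C]
    rw [mul_inv_rev, Units.val_mul]
    simp only [Matrix.mul_apply, map_sum, map_mul, Finset.sum_mul, Finset.mul_sum]
    rw [Finset.sum_comm]
    refine Finset.sum_congr rfl fun b _ => Finset.sum_congr rfl fun c _ => ?_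
    simp only [MvPolynomial.algebraMap_eq]
    ring
  rw [this]
  rfl

theorem act_pow (g : Gl n) (k : ℕ) (f : MvPolynomial (Fin n) ℂ) :
    act (g ^ k) f = (act g)^[k] f := by
  induction k with
  | zero => rw [pow_zero, act_one]; rfl
  | succ k ih => rw [pow_succ', act_mul, ih, Function.iterate_succ_apply']

end

end Pool.Agent.V5helper74.CM
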